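import Pool.Agent.H293.CP.PF2
import Pool.Graph.R_pool_sql_team_seeded_3997aac3.Q253.CP.F3
import Pool.Graph.R_pool_sql_team_seeded_3997aac3.Q253.CP.F5
import Pool.Graph.R_pool_sql_team_seeded_3997aac3.Q102.CP.CVf
import Pool.Graph.R_pool_sql_team_seeded_3997aac3.Q257.CP.BG
import Pool.Graph.R_pool_sql_team_seeded_3997aac3.Q227.CP.WT
import Pool.Graph.R_pool_sql_team_seeded_3997aac3.Q227.CP.KT

/-!
# Assembly of project CP
-/

set_option autoImplicit false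

open MeasureTheory Complex Filter Topology Metric Set
open DirichletCharacter (LFunction completedLFunction changeLevel)

namespace Pool.Agent.H293.CP

open Pool.Agent.Q253.HV Pool.Agent.Q253.LQ Pool.Agent.Q253.CP

/-- upper bound for the long means -/
def UM (f : ℝ → ℂ) (M : ℝ) : Prop :=
  ∀ ε : ℝ, 0 < ε → ∃ b0 : ℝ, ∀ b : ℝ, b0 ≤ b → ∀ᶠ T : ℝ in atTop, VT f T b ≤ (M + ε) * b

/-- asymptotic formula for the long means -/
def EM (f : ℝ → ℂ) (M : ℝ) : Prop :=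
  ∀ ε : ℝ, 0 < ε → ∃ b0 : ℝ, ∀ b : ℝ, b0 ≤ b → ∀ᶠ T : ℝ in atTop, |VT f T b - M * b| ≤ ε * b

/-- few close pairs -/
def SP (m : ℝ → ℕ) (M : ℝ) : Prop :=
  ∀ ε : ℝ, 0 < ε → ∃ β : ℝ, 0 < β ∧ ∀ᶠ U : ℝ in atTop, (Pm m U β : ℝ) ≤ (M + ε) * Nm m U

lemma um_of_em {f : ℝ → ℂ} {M : ℝ} (h : EM f M) : UM f M := by
  intro ε hε
  obtain ⟨b0, h0⟩ := h ε hε
  refine ⟨b0, fun b hb => ?_⟩
  filter_upwards [h0 b hb] with T hT
  have := (abs_le.1 hT).2
  linarith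

lemma VT_mono {f : ℝ → ℂ} (hm : Measurable f) (hC : ∃ C : ℝ, ∀ t, ‖f t‖ ≤ C * Real.exp t) {T b b' : ℝ}
    (hT : 1 ≤ T) (hb : 1 ≤ b) (hbb : b ≤ b') : VT f T b ≤ VT f T b' := by
  rw [Q227.CP.VT_eq f hT hb, Q227.CP.VT_eq f hT (hb.trans hbb)]
  have hlog : 0 ≤ Real.log T := Real.log_nonneg hT
  refine mul_le_mul_of_nonneg_left ?_ (by positivity)
  refine intervalIntegral.integral_mono_interval le_rfl ?_ ?_ ?_ (Q227.CP.FF_ii hm hC _ _ _)
  · nlinarith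
  · exact mul_le_mul_of_nonneg_right hbb hlog
  · exact Eventually.of_forall fun u => Q227.CP.FF_nonneg f _ u

variable {q : ℕ} [NeZero q]

lemma bdd_of_um (X : Finset (DirichletCharacter ℂ q)) {M : ℝ} (h : UM (fX X) M) :
    ∀ b : ℝ, 1 < b → ∃ C : ℝ, ∀ᶠ T : ℝ in atTop, VT (fX X) T b ≤ C := by
  intro b hb
  obtain ⟨b0, h0⟩ := h 1 one_pos
  refine ⟨(M + 1) * max b0 b, ?_⟩
  filter_upwards [h0 (max b0 b) (le_max_left _ _), eventually_ge_atTop 1] with T hT hT1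
  exact (VT_mono (fX_meas X) (fX_le X) hT1 hb.le (le_max_right _ _)).trans hT

theorem cv : S_CV := Pool.Agent.Q102.CP.t_CV Pool.Agent.Q257.CP.t_KPL Pool.Agent.Q257.CP.t_KPO Q227.CP.t_WT
  (Pool.Agent.Q102.CP.t_TB Pool.Agent.Q257.CP.t_KPL Q227.CP.t_WT)

/-- the system of a set of characters under GRH -/
lemma sys_grh (X : Finset (DirichletCharacter ℂ q)) (hX : X.Nonempty) (hG : ∀ χ ∈ X, GRHc χ) :
    Sys (fX X) (mX X) X.card := sys_X t_PF X hX hG (Pool.Agent.Q257.CP.t_BG q X hG)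

lemma grh_of_bdd (X : Finset (DirichletCharacter ℂ q))
    (h : ∀ b : ℝ, 1 < b → ∃ C : ℝ, ∀ᶠ T : ℝ in atTop, VT (fX X) T b ≤ C) : ∀ χ ∈ X, GRHc χ :=
  (Pool.Agent.Q257.CP.t_GR q X (adm_of (fX_meas X) (fX_le X) h)).1

/-- from primes to zeros -/
theorem up (X : Finset (DirichletCharacter ℂ q)) (hX : X.Nonempty) {η : ℝ} (hη : 0 ≤ η)
    (h : UM (fX X) (X.card * (1 + η))) : (∀ χ ∈ X, GRHc χ) ∧ SP (mX X) (1 + 9 / 4 * η) := by
  have hG := grh_of_bdd X (bdd_of_um X h)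
  exact ⟨hG, upper_side Q227.CP.t_WT (sys_grh X hX hG) (fX_le X) hη h⟩

/-- from zeros to primes -/
theorem down (X : Finset (DirichletCharacter ℂ q)) (hX : X.Nonempty) (hG : ∀ χ ∈ X, GRHc χ)
    (h : SP (mX X) 1) : EM (fX X) X.card :=
  lower_side Q227.CP.t_WT cv (sys_grh X hX hG) (fX_le X) h

/-- the multiple and shared zeros -/
theorem bad (X : Finset (DirichletCharacter ℂ q)) (hG : ∀ χ ∈ X, GRHc χ) {M : ℝ}
    (h : SP (mX X) M) (ε : ℝ) (hε : 0 < ε) :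
    ∀ᶠ U : ℝ in atTop, (Bm (mX X) U : ℝ) ≤ (M - 1 + ε) * Nm (mX X) U := by
  obtain ⟨β, hβ, h1⟩ := h ε hε
  filter_upwards [h1] with U hU
  have := Bm_le (mX_sm t_PF X hG) U β hβ.le
  linarith

/-- monotonicity in the multiplicities -/
lemma excess_mono {m m' : ℝ → ℕ} (hm : Summable (fun γ : ℝ => (m γ : ℝ) / (1 + γ ^ 2)))
    (hm' : Summable (fun γ : ℝ => (m' γ : ℝ) / (1 + γ ^ 2))) (hle : ∀ γ, m γ ≤ m' γ) (U β : ℝ) (hβ : 0 ≤ β) :
    (Pm m U β : ℝ) - Nm m U ≤ (Pm m' U β : ℝ) - Nm m' U := by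
  classical
  rw [Nm_eq hm, Pm_eq hm, Nm_eq hm', Pm_eq hm', ← Finset.sum_sub_distrib, ← Finset.sum_sub_distrib]
  have hsub : (Pool.Agent.Q253.CP.fin_zeros hm U).toFinset ⊆ (Pool.Agent.Q253.CP.fin_zeros hm' U).toFinset := by
    intro γ hγ
    rw [Finite.mem_toFinset] at hγ ⊢
    refine ⟨hγ.1, ?_⟩
    have := hle γ
    have h2 := hγ.2
    omega
  have hin : ∀ γ ∈ (Pool.Agent.Q253.CP.fin_zeros hm' U).toFinset,
      (m' γ : ℝ) ≤ ∑ γ' ∈ (Pool.Agent.Q253.CP.fin_zeros hm' U).toFinset.filter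
        (fun γ' => |γ - γ'| * Real.log U / (2 * Real.pi) ≤ β), (m' γ' : ℝ) := by
    intro γ hγ
    refine Finset.single_le_sum (f := fun γ' => (m' γ' : ℝ)) (fun _ _ => Nat.cast_nonneg _) ?_
    rw [Finset.mem_filter]
    refine ⟨hγ, ?_⟩
    rw [sub_self, abs_zero, zero_mul, zero_div]
    exact hβ
  have h1 : ∀ γ ∈ (Pool.Agent.Q253.CP.fin_zeros hm U).toFinset,
      ∑ γ' ∈ (Pool.Agent.Q253.CP.fin_zeros hm U).toFinset.filter
        (fun γ' => |γ - γ'| * Real.log U / (2 * Real.pi) ≤ β), (m γ' : ℝ) ≤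
      ∑ γ' ∈ (Pool.Agent.Q253.CP.fin_zeros hm' U).toFinset.filter
        (fun γ' => |γ - γ'| * Real.log U / (2 * Real.pi) ≤ β), (m' γ' : ℝ) := by
    intro γ _
    refine le_trans (b := ∑ γ' ∈ (Pool.Agent.Q253.CP.fin_zeros hm U).toFinset.filter
        (fun γ' => |γ - γ'| * Real.log U / (2 * Real.pi) ≤ β), (m' γ' : ℝ)) ?_ ?_
    · exact Finset.sum_le_sum fun γ' _ => by exact_mod_cast hle γ'
    · exact Finset.sum_le_sum_of_subset_of_nonneg (Finset.filter_subset_filter _ hsub)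
          fun _ _ _ => Nat.cast_nonneg _
  have hnn : ∀ γ ∈ (Pool.Agent.Q253.CP.fin_zeros hm' U).toFinset,
      (0 : ℝ) ≤ (m' γ : ℝ) * (∑ γ' ∈ (Pool.Agent.Q253.CP.fin_zeros hm' U).toFinset.filter
        (fun γ' => |γ - γ'| * Real.log U / (2 * Real.pi) ≤ β), (m' γ' : ℝ)) - m' γ := by
    intro γ hγ
    have h2 : (1 : ℝ) ≤ m' γ := by
      exact_mod_cast Nat.one_le_iff_ne_zero.2 ((Pool.Agent.Q253.CP.fin_zeros hm' U).mem_toFinset.1 hγ).2
    have h3 := hin γ hγ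
    nlinarith
  refine le_trans (Finset.sum_le_sum fun γ hγ => ?_)
    (Finset.sum_le_sum_of_subset_of_nonneg hsub fun γ hγ _ => hnn γ hγ)
  have h2 := h1 γ hγ
  have h3 : (m γ : ℝ) ≤ m' γ := by exact_mod_cast hle γ
  have h4 := hin γ (hsub hγ)
  have h5 : (1 : ℝ) ≤ m γ := by
    exact_mod_cast Nat.one_le_iff_ne_zero.2 ((Pool.Agent.Q253.CP.fin_zeros hm U).mem_toFinset.1 hγ).2
  obtain ⟨A, hA⟩ : ∃ A : ℝ, A = ∑ γ' ∈ (Pool.Agent.Q253.CP.fin_zeros hm' U).toFinset.filter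
        (fun γ' => |γ - γ'| * Real.log U / (2 * Real.pi) ≤ β), (m' γ' : ℝ) := ⟨_, rfl⟩
  obtain ⟨B, hB⟩ : ∃ B : ℝ, B = ∑ γ' ∈ (Pool.Agent.Q253.CP.fin_zeros hm U).toFinset.filter
        (fun γ' => |γ - γ'| * Real.log U / (2 * Real.pi) ≤ β), (m γ' : ℝ) := ⟨_, rfl⟩
  rw [← hA] at h2 h4 ⊢
  rw [← hB] at h2 ⊢
  have e1 : (m γ : ℝ) * B ≤ (m γ : ℝ) * A := mul_le_mul_of_nonneg_left h2 (by linarith)
  have e2 : (m γ : ℝ) * (A - 1) ≤ (m' γ : ℝ) * (A - 1) := mul_le_mul_of_nonneg_right h3 (by linarith)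
  linarith

/-- subfamilies, of a divisor of the modulus -/
theorem sp_sub {d : ℕ} [NeZero d] {X : Finset (DirichletCharacter ℂ q)} {Y : Finset (DirichletCharacter ℂ d)}
    {D D' : ℝ} (hD : 0 < D) (hD' : 0 < D')
    (hm : Summable (fun γ : ℝ => (mX X γ : ℝ) / (1 + γ ^ 2)))
    (hm' : Summable (fun γ : ℝ => (mX Y γ : ℝ) / (1 + γ ^ 2)))
    (hle : ∀ γ, mX Y γ ≤ mX X γ)
    (hN : Tendsto (fun U : ℝ => (Nm (mX X) U : ℝ) / (U * Real.log U)) atTop (𝓝 (D / Real.pi)))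
    (hN' : Tendsto (fun U : ℝ => (Nm (mX Y) U : ℝ) / (U * Real.log U)) atTop (𝓝 (D' / Real.pi)))
    (h : SP (mX X) 1) : SP (mX Y) 1 := by
  have hpi := Real.pi_pos
  intro ε hε
  obtain ⟨β, hβ, h1⟩ := h (ε * D' / (4 * D)) (by positivity)
  refine ⟨β, hβ, ?_⟩
  have h2 : ∀ᶠ U : ℝ in atTop, (Nm (mX X) U : ℝ) / (U * Real.log U) < 2 * (D / Real.pi) :=
    hN.eventually (gt_mem_nhds (by have : 0 < D / Real.pi := by positivity
                                   linarith))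
  have h3 : ∀ᶠ U : ℝ in atTop, 1 / 2 * (D' / Real.pi) < (Nm (mX Y) U : ℝ) / (U * Real.log U) :=
    hN'.eventually (lt_mem_nhds (by have : 0 < D' / Real.pi := by positivity
                                    linarith))
  filter_upwards [h1, h2, h3, eventually_gt_atTop 1] with U g1 g2 g3 hU
  have hlog : 0 < Real.log U := Real.log_pos hU
  have hUl : 0 < U * Real.log U := by positivity
  rw [div_lt_iff₀ hUl] at g2
  rw [lt_div_iff₀ hUl] at g3
  have g4 := excess_mono hm' hm hle U β hβ.le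
  have g5 : (Nm (mX X) U : ℝ) * D' ≤ 4 * D * Nm (mX Y) U := by
    have e1 : 2 * (D / Real.pi) * (U * Real.log U) * D' = 4 * D * (1 / 2 * (D' / Real.pi) * (U * Real.log U)) := by
      ring
    have e2 := mul_le_mul_of_nonneg_left g3.le (show 0 ≤ 4 * D by positivity)
    have e3 := mul_le_mul_of_nonneg_right g2.le hD'.le
    linarith
  have g6 : ε * D' / (4 * D) * (Nm (mX X) U : ℝ) ≤ ε * Nm (mX Y) U := by
    have e1 : ε * D' / (4 * D) * (Nm (mX X) U : ℝ) = ε / (4 * D) * ((Nm (mX X) U : ℝ) * D') := by ring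
    rw [e1]
    calc _ ≤ ε / (4 * D) * (4 * D * Nm (mX Y) U) := mul_le_mul_of_nonneg_left g5 (by positivity)
      _ = _ := by field_simp
  linarith

/-- the order of an imprimitive L-function -/
lemma ord_change {d : ℕ} [NeZero d] (h : d ∣ q) (ψ : DirichletCharacter ℂ d) {s : ℂ} (hs : 0 < s.re)
    (hs1 : s ≠ 1) :
    analyticOrderAt (LFunction (changeLevel h ψ)) s = analyticOrderAt (LFunction ψ) s := by
  have hfac : ∀ w : ℂ, w ≠ 1 → LFunction (changeLevel h ψ) w = LFunction ψ w *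
      ∏ p ∈ q.primeFactors, (1 - ψ p * (p : ℂ) ^ (-w)) := fun w hw =>
    DirichletCharacter.LFunction_changeLevel h ψ (s := w) (Or.inr hw)
  have hev : LFunction (changeLevel h ψ) =ᶠ[𝓝 s] (LFunction ψ * fun w : ℂ =>
      ∏ p ∈ q.primeFactors, (1 - ψ p * (p : ℂ) ^ (-w))) := by
    filter_upwards [isOpen_ne.mem_nhds hs1] with w hw
    exact hfac w hw
  have hg : AnalyticAt ℂ (fun w : ℂ => ∏ p ∈ q.primeFactors, (1 - ψ p * (p : ℂ) ^ (-w))) s := by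
    refine Finset.analyticAt_fun_prod _ fun p hp => ?_
    have hp0 : (p : ℂ) ≠ 0 := by exact_mod_cast (Nat.prime_of_mem_primeFactors hp).ne_zero
    have hd : Differentiable ℂ (fun w : ℂ => 1 - ψ p * (p : ℂ) ^ (-w)) := by
      intro w
      have h1 : HasDerivAt (fun s : ℂ => -s) (-1) w := (hasDerivAt_id w).neg
      exact (((h1.const_cpow (Or.inl hp0)).const_mul (ψ p)).const_sub 1).differentiableAt
    exact hd.analyticAt s
  have hg0 : ∏ p ∈ q.primeFactors, (1 - ψ p * (p : ℂ) ^ (-s)) ≠ 0 := by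
    refine Finset.prod_ne_zero_iff.2 fun p hp => ?_
    have hpp := Nat.prime_of_mem_primeFactors hp
    have hp0 : (0 : ℝ) < p := by exact_mod_cast hpp.pos
    have hp1 : (1 : ℝ) < p := by exact_mod_cast hpp.one_lt
    intro h
    have h2 : ψ p * (p : ℂ) ^ (-s) = 1 := by linear_combination -h
    have h3 : ‖ψ p * (p : ℂ) ^ (-s)‖ < 1 := by
      rw [norm_mul, ← Complex.ofReal_natCast, norm_cpow_eq_rpow_re_of_pos hp0, neg_re]
      have h4 := DirichletCharacter.norm_le_one ψ (p : ZMod d)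
      have h5 : (p : ℝ) ^ (-s.re) < 1 := Real.rpow_lt_one_of_one_lt_of_neg hp1 (by linarith)
      have h6 : 0 < (p : ℝ) ^ (-s.re) := Real.rpow_pos_of_pos hp0 _
      nlinarith [norm_nonneg (ψ p)]
    rw [h2, norm_one] at h3
    exact lt_irrefl _ h3
  rw [analyticOrderAt_congr hev, analyticOrderAt_mul (Pool.Agent.Q14.LQ.LF_an ψ hs1) hg,
    hg.analyticOrderAt_eq_zero.2 hg0, add_zero]

lemma mc_change {d : ℕ} [NeZero d] (h : d ∣ q) (ψ : DirichletCharacter ℂ d) (γ : ℝ) :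
    mc (changeLevel h ψ) γ = mc ψ γ := by
  unfold mc analyticOrderNatAt
  rw [ord_change h ψ (by rw [Pool.Agent.Q195.CP.NT.half_re']; norm_num) half_add_ne]

lemma grh_change {d : ℕ} [NeZero d] (h : d ∣ q) (ψ : DirichletCharacter ℂ d)
    (hG : GRHc (changeLevel h ψ)) : GRHc ψ := by
  intro s h1 h2 h0
  have hs1 : s ≠ 1 := fun h => by
    rw [h, one_re] at h2
    exact lt_irrefl _ h2
  refine hG s h1 h2 ?_
  rw [DirichletCharacter.LFunction_changeLevel h ψ (s := s) (Or.inr hs1), h0, zero_mul]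

lemma mX_sub {d : ℕ} [NeZero d] (h : d ∣ q) {X : Finset (DirichletCharacter ℂ q)}
    {Y : Finset (DirichletCharacter ℂ d)} (hY : ∀ ψ ∈ Y, changeLevel h ψ ∈ X) (γ : ℝ) : mX Y γ ≤ mX X γ := by
  classical
  unfold mX
  have hinj : Function.Injective (changeLevel h : DirichletCharacter ℂ d → DirichletCharacter ℂ q) :=
    DirichletCharacter.changeLevel_injective h
  calc ∑ χ ∈ Y, mc χ γ = ∑ χ ∈ Y, mc (changeLevel h χ) γ :=
        Finset.sum_congr rfl fun χ _ => (mc_change h χ γ).symm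
    _ = ∑ χ ∈ Y.image (changeLevel h), mc χ γ := by
        rw [Finset.sum_image (fun a _ b _ hab => hinj hab)]
    _ ≤ ∑ χ ∈ X, mc χ γ := by
        refine Finset.sum_le_sum_of_subset_of_nonneg ?_ fun _ _ _ => Nat.zero_le _
        intro χ hχ
        obtain ⟨ψ, hψ, rfl⟩ := Finset.mem_image.1 hχ
        exact hY ψ hψ

/-- inheritance -/
theorem inherit {d : ℕ} [NeZero d] (h : d ∣ q) (X : Finset (DirichletCharacter ℂ q)) (hX : X.Nonempty)
    (Y : Finset (DirichletCharacter ℂ d)) (hYn : Y.Nonempty) (hY : ∀ ψ ∈ Y, changeLevel h ψ ∈ X)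
    (hU : UM (fX X) X.card) : (∀ ψ ∈ Y, GRHc ψ) ∧ SP (mX Y) 1 := by
  obtain ⟨hG, hS⟩ := up X hX (η := 0) le_rfl (by simpa using hU)
  have hG' : ∀ ψ ∈ Y, GRHc ψ := fun ψ hψ => grh_change h ψ (hG _ (hY ψ hψ))
  refine ⟨hG', ?_⟩
  have hS1 : SP (mX X) 1 := by simpa using hS
  have s1 := sys_grh X hX hG
  have s2 := sys_grh Y hYn hG'
  exact sp_sub (D := X.card) (D' := Y.card) (by exact_mod_cast hX.card_pos) (by exact_mod_cast hYn.card_pos)
    s1.sm s2.sm (mX_sub h hY) s1.nt s2.nt hS1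

end Pool.Agent.H293.CP
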