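import Pool.Agent.H862.EC.PFG
import Pool.Agent.H862.VK.Zt
import Pool.Graph.R_pool_sql_team_seeded_3997aac3.Q195.CP.RL
import Pool.Graph.R_pool_sql_team_seeded_3997aac3.Q195.CP.NT

/-!
# Partial fractions of the logarithmic derivatives of the completed L-functions

The open statement `S_PF` of the library project LQ (run `3997aac3`, seat 253).
-/

set_option autoImplicit false

open Complex Filter Topology Metric Set
open scoped ComplexConjugate
open DirichletCharacter (LFunction completedLFunction)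

namespace Pool.Agent.H293.CP

open Pool.Agent.NH13.UV (Gr)

section core

variable {Y : ℂ → ℂ}

/-- the logarithmic derivative of a function symmetric with respect to the imaginary axis -/
lemma logDeriv_sym (hY : Differentiable ℂ Y) (hs : ∀ z, Y (-(conj z)) = conj (Y z)) (z : ℂ) :
    logDeriv Y (-(conj z)) = -conj (logDeriv Y z) := by
  have h1 : HasDerivAt (fun w => conj (Y (conj w))) (conj (deriv Y z)) (conj z) := by
    have := (hY z).hasDerivAt.conj_conj
    exact this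
  have h2 : (fun w => conj (Y (conj w))) = fun w => Y (-w) := by
    funext w
    have := hs (conj w)
    rw [conj_conj] at this
    exact this.symm
  have h3 : HasDerivAt (fun w => Y (-w)) (-(deriv Y (-(conj z)))) (conj z) := by
    have h := (hY (-(conj z))).hasDerivAt.comp (conj z) (hasDerivAt_neg (conj z))
    rw [mul_neg_one] at h
    exact h
  rw [h2] at h1
  have h4 := h1.unique h3
  rw [logDeriv_apply, logDeriv_apply, hs z, map_div₀, h4]
  ring

lemma zero_line (hs : ∀ z, Y (-(conj z)) = conj (Y z)) (hne : ∀ z : ℂ, 0 < z.re → Y z ≠ 0) {b : ℂ}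
    (hb : Y b = 0) : b.re = 0 := by
  rcases lt_trichotomy b.re 0 with h | h | h
  · exfalso
    refine hne (-(conj b)) (by rw [neg_re, conj_re]; linarith) ?_
    rw [hs, hb, map_zero]
  · exact h
  · exact absurd hb (hne b h)

/-- partial fractions over the real ordinates -/
lemma pf_real (hY : Differentiable ℂ Y) (hg : Gr Y) (hs : ∀ z, Y (-(conj z)) = conj (Y z))
    (hne : ∀ z : ℂ, 0 < z.re → Y z ≠ 0) {m : ℝ → ℕ} (hm : ∀ γ : ℝ, analyticOrderNatAt Y ((γ : ℂ) * I) = m γ)
    {z w : ℂ} (hz : Y z ≠ 0) (hw : Y w ≠ 0) :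
    HasSum (fun γ : ℝ => (m γ : ℂ) * (1 / (z - γ * I) - 1 / (w - γ * I))) (logDeriv Y z - logDeriv Y w) := by
  have h := Pool.Agent.H862.EC.pfg hY hg z w hz hw
  obtain ⟨i, hi⟩ : ∃ i : {b : ℂ // Y b = 0} → ℝ, i = fun b => (b.1 : ℂ).im := ⟨_, rfl⟩
  have hb : ∀ b : {b : ℂ // Y b = 0}, ((i b : ℝ) : ℂ) * I = (b : ℂ) := by
    intro b
    have h0 := zero_line hs hne b.2
    rw [hi]
    apply Complex.ext
    · simp [h0]
    · simp
  have hinj : Function.Injective i := by
    intro b c hbc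
    apply Subtype.ext
    rw [← hb b, ← hb c, hbc]
  have hsupp : ∀ γ ∉ Set.range i, (m γ : ℂ) * (1 / (z - γ * I) - 1 / (w - γ * I)) = 0 := by
    intro γ hγ
    have h1 : Y ((γ : ℂ) * I) ≠ 0 := by
      intro h2
      apply hγ
      refine ⟨⟨(γ : ℂ) * I, h2⟩, ?_⟩
      rw [hi]
      simp
    have h2 : m γ = 0 := by
      rw [← hm γ]
      unfold analyticOrderNatAt
      rw [(hY.analyticAt _).analyticOrderAt_eq_zero.2 h1]
      rfl
    rw [h2]
    simp
  rw [← hinj.hasSum_iff hsupp]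
  refine h.congr_fun ?_
  intro b
  simp only [Function.comp]
  rw [← hm (i b), hb b]

lemma pf_re (hY : Differentiable ℂ Y) (hg : Gr Y) (hs : ∀ z, Y (-(conj z)) = conj (Y z))
    (hne : ∀ z : ℂ, 0 < z.re → Y z ≠ 0) {m : ℝ → ℕ} (hm : ∀ γ : ℝ, analyticOrderNatAt Y ((γ : ℂ) * I) = m γ)
    {z : ℂ} (hz : 0 < z.re) :
    HasSum (fun γ : ℝ => (m γ : ℝ) * (1 / (z - γ * I)).re) (logDeriv Y z).re := by
  have hz0 := hne z hz
  have hw0 : Y (-(conj z)) ≠ 0 := by
    rw [hs]
    intro h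
    exact hz0 ((map_eq_zero (starRingEnd ℂ)).1 h)
  have h := pf_real hY hg hs hne hm hz0 hw0
  rw [logDeriv_sym hY hs z, sub_neg_eq_add, add_conj] at h
  have h2 := (Complex.hasSum_re h).mul_left (1 / 2)
  have e : 1 / 2 * ((2 * ((logDeriv Y z).re : ℝ) : ℝ) : ℂ).re = (logDeriv Y z).re := by
    rw [ofReal_re]
    ring
  rw [e] at h2
  refine h2.congr_fun ?_
  intro γ
  have h3 : (1 / (-(conj z) - γ * I) : ℂ) = -conj (1 / (z - γ * I)) := by
    rw [map_div₀, map_one, map_sub, map_mul, conj_I, conj_ofReal]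
    rw [show (conj z - (γ : ℂ) * -I) = -(-(conj z) - γ * I) by ring, div_neg, neg_neg]
  rw [h3, sub_neg_eq_add, add_conj, ← ofReal_natCast, ← ofReal_mul, ofReal_re]
  ring

lemma pf_summable (hY : Differentiable ℂ Y) (hg : Gr Y) (hs : ∀ z, Y (-(conj z)) = conj (Y z))
    (hne : ∀ z : ℂ, 0 < z.re → Y z ≠ 0) {m : ℝ → ℕ} (hm : ∀ γ : ℝ, analyticOrderNatAt Y ((γ : ℂ) * I) = m γ) :
    Summable (fun γ : ℝ => (m γ : ℝ) / (1 + γ ^ 2)) := by
  have h := (pf_re hY hg hs hne hm (z := 1) (by simp)).summable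
  refine h.congr fun γ => ?_
  have : (1 / (1 - (γ : ℂ) * I)).re = 1 / (1 + γ ^ 2) := by
    rw [one_div, inv_re, normSq_apply]
    simp
    ring_nf
  rw [this]
  ring

end core

/-- the order of a product with a shifted function -/
lemma ord_shift {f g Y : ℂ → ℂ} {z0 : ℂ} (hY : Y =ᶠ[𝓝 z0] fun z => f z * g (1 / 2 + z))
    (hf : AnalyticAt ℂ f z0) (hf0 : f z0 ≠ 0) (hg : AnalyticAt ℂ g (1 / 2 + z0)) :
    analyticOrderAt Y z0 = analyticOrderAt g (1 / 2 + z0) := by
  have h1 : AnalyticAt ℂ (fun z : ℂ => 1 / 2 + z) z0 := by fun_prop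
  have h2 : analyticOrderAt (g ∘ fun z : ℂ => 1 / 2 + z) z0 = analyticOrderAt g (1 / 2 + z0) := by
    refine analyticOrderAt_comp_of_deriv_ne_zero h1 ?_
    have : deriv (fun z : ℂ => 1 / 2 + z) z0 = 1 := by
      rw [deriv_const_add]
      exact deriv_id z0
    rw [this]
    exact one_ne_zero
  have h3 : AnalyticAt ℂ (g ∘ fun z : ℂ => 1 / 2 + z) z0 := AnalyticAt.comp (by simpa using hg) h1
  have hev : Y =ᶠ[𝓝 z0] (f * (g ∘ fun z : ℂ => 1 / 2 + z)) := hY
  rw [analyticOrderAt_congr hev, analyticOrderAt_mul hf h3, hf.analyticOrderAt_eq_zero.2 hf0, zero_add, h2]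

end Pool.Agent.H293.CP
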