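import Pool.Agent.H293.CP.PF2

/-!
# The symmetric entire functions belonging to the L-functions
-/

set_option autoImplicit false

open Complex Filter Topology Metric Set
open scoped ComplexConjugate
open DirichletCharacter (LFunction completedLFunction)

namespace Pool.Agent.H293.CP

open Pool.Agent.NH13.UV (Gr)
open Pool.Agent.Q253.HV Pool.Agent.Q253.LQ Pool.Agent.Q119.HV
open H370 H370.DL H370.DG H429.GP H855R2.SF

/-- a symmetric entire function with the zeros of the L-function -/
def Dt {q : ℕ} [NeZero q] (χ : DirichletCharacter ℂ q) (Y : ℂ → ℂ) : Prop :=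
  Differentiable ℂ Y ∧ Gr Y ∧ (∀ z, Y (-(conj z)) = conj (Y z)) ∧ (∀ z : ℂ, 0 < z.re → Y z ≠ 0) ∧
  (∀ γ : ℝ, analyticOrderNatAt Y ((γ : ℂ) * I) = mc χ γ) ∧
  ∀ z : ℂ, 0 < z.re → logDeriv (XL χ) (1 / 2 + z) = logDeriv Y z

/-- the principal character -/
lemma dt_one (q : ℕ) [NeZero q] (hχ : GRHc (1 : DirichletCharacter ℂ q)) :
    ∃ Y, Dt (1 : DirichletCharacter ℂ q) Y := by
  have hfac : ∀ w : ℂ, w ≠ 1 → LFunction (1 : DirichletCharacter ℂ q) w =
      (∏ p ∈ q.primeFactors, (1 - (p : ℂ) ^ (-w))) * riemannZeta w := fun w hw =>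
    DirichletCharacter.LFunctionTrivChar_eq_mul_riemannZeta (N := q) hw
  have hne : ∀ z : ℂ, 0 < z.re → Pool.Agent.H862.VK.Yz z ≠ 0 := by
    intro z hz
    rcases lt_or_ge z.re (1 / 2) with h | h
    · have hz1 : z ≠ 1 / 2 := by
        intro h0
        rw [h0] at h
        norm_num at h
      have hs1 := Pool.Agent.H862.VK.s_ne_one hz1
      have hre := Pool.Agent.H862.VK.half_re z
      have hζ : riemannZeta (1 / 2 + z) ≠ 0 := by
        intro h0
        have := grh_ne hχ (s := 1 / 2 + z) (by rw [hre]; linarith) (Or.inr hs1)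
        rw [hfac _ hs1, h0, mul_zero] at this
        exact this rfl
      rw [Pool.Agent.H862.VK.Yz_eq (by linarith) hz1]
      have hs0 : (1 / 2 + z : ℂ) ≠ 0 := by
        intro h0
        rw [h0, zero_re] at hre
        linarith
      exact mul_ne_zero (mul_ne_zero hs0 (Gammaℝ_ne_zero_of_re_pos (by rw [hre]; linarith)))
        (mul_ne_zero (Pool.Agent.H862.VK.sub_half_ne hz1) hζ)
    · exact Pool.Agent.H862.VK.Yz_ne h
  have hm : ∀ γ : ℝ, analyticOrderNatAt Pool.Agent.H862.VK.Yz ((γ : ℂ) * I) =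
      mc (1 : DirichletCharacter ℂ q) γ := by
    intro γ
    have hz1 : ((γ : ℂ) * I) ≠ 1 / 2 := by
      intro h0
      have := congrArg Complex.re h0
      rw [re_mul_I] at this
      norm_num at this
    have hs1 : (1 / 2 + (γ : ℂ) * I) ≠ 1 := half_add_ne
    have hre : (1 / 2 + (γ : ℂ) * I).re = 1 / 2 := Pool.Agent.Q195.CP.NT.half_re' γ
    have hopen : {w : ℂ | -(1 / 2) < w.re ∧ w ≠ 1 / 2} ∈ 𝓝 ((γ : ℂ) * I) := by
      have ho : IsOpen {w : ℂ | -(1 / 2) < w.re ∧ w ≠ 1 / 2} :=
        (isOpen_lt continuous_const continuous_re).inter isOpen_ne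
      refine ho.mem_nhds ⟨?_, hz1⟩
      show -(1 / 2) < ((γ : ℂ) * I).re
      rw [re_mul_I]
      norm_num
    have e1 : analyticOrderAt Pool.Agent.H862.VK.Yz ((γ : ℂ) * I) =
        analyticOrderAt riemannZeta (1 / 2 + (γ : ℂ) * I) := by
      refine ord_shift (f := fun z => (1 / 2 + z) * Gammaℝ (1 / 2 + z) * (z - 1 / 2)) ?_ ?_ ?_ ?_
      · filter_upwards [hopen] with w hw
        rw [Pool.Agent.H862.VK.Yz_eq hw.1 hw.2]
        ring
      · have hd : ∀ᶠ w in 𝓝 ((γ : ℂ) * I), DifferentiableAt ℂ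
            (fun z => (1 / 2 + z) * Gammaℝ (1 / 2 + z) * (z - 1 / 2)) w := by
          filter_upwards [hopen] with w hw
          have h1 : 0 < (1 / 2 + w).re := by
            rw [Pool.Agent.H862.VK.half_re]
            have : -(1 / 2) < w.re := hw.1
            linarith
          have h2 : DifferentiableAt ℂ (fun z : ℂ => Gammaℝ (1 / 2 + z)) w :=
            DifferentiableAt.comp w (Pool.Agent.Q195.CP.diffAt_GammaR h1) (by fun_prop)
          exact ((by fun_prop : DifferentiableAt ℂ (fun z : ℂ => 1 / 2 + z) w).mul h2).mul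
            (by fun_prop : DifferentiableAt ℂ (fun z : ℂ => z - 1 / 2) w)
        exact analyticAt_iff_eventually_differentiableAt.2 hd
      · refine mul_ne_zero (mul_ne_zero ?_ (Gammaℝ_ne_zero_of_re_pos (by rw [hre]; norm_num)))
          (sub_ne_zero.2 hz1)
        intro h0
        rw [h0, zero_re] at hre
        norm_num at hre
      · have hd : ∀ᶠ w in 𝓝 (1 / 2 + (γ : ℂ) * I), DifferentiableAt ℂ riemannZeta w := by
          filter_upwards [isOpen_ne.mem_nhds hs1] with w hw
          exact differentiableAt_riemannZeta hw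
        exact analyticAt_iff_eventually_differentiableAt.2 hd
    have e2 : analyticOrderAt (LFunction (1 : DirichletCharacter ℂ q)) (1 / 2 + (γ : ℂ) * I) =
        analyticOrderAt riemannZeta (1 / 2 + (γ : ℂ) * I) := by
      have : NeZero (1 : DirichletCharacter ℂ q).conductor :=
        ⟨(1 : DirichletCharacter ℂ q).conductor_ne_zero⟩
      rw [Pool.Agent.Q195.CP.NT.ord_prim _ (by rw [hre]; norm_num) hs1]
      have h1 : (1 : DirichletCharacter ℂ q).conductor = 1 :=
        DirichletCharacter.conductor_one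
      have h3 : ∀ (N : ℕ) [NeZero N] (ψ : DirichletCharacter ℂ N), N = 1 →
          LFunction ψ = riemannZeta := by
        intro N _ ψ hN
        subst hN
        exact DirichletCharacter.LFunction_modOne_eq
      rw [h3 _ (1 : DirichletCharacter ℂ q).primitiveCharacter h1]
    unfold mc analyticOrderNatAt
    rw [e1, e2]
  refine ⟨Pool.Agent.H862.VK.Yz, Pool.Agent.H862.VK.Yz_diff, Pool.Agent.H862.VK.Yz_gr, Pool.Agent.H862.VK.Yz_sym, hne, hm, ?_⟩
  intro z _
  have hX : XL (1 : DirichletCharacter ℂ q) = xi := by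
    funext w
    unfold XL
    rw [if_pos rfl]
  rw [hX]
  have e : (fun w : ℂ => xi (1 / 2 + w)) = fun w => (1 / 2) * Pool.Agent.H862.VK.Yz w := by
    funext w
    unfold xi Pool.Agent.H862.VK.Yz
    ring
  have e2 : logDeriv (fun w : ℂ => xi (1 / 2 + w)) z = logDeriv xi (1 / 2 + z) := by
    rw [logDeriv_apply, logDeriv_apply]
    congr 1
    exact deriv_comp_const_add (f := xi) (1 / 2) z
  rw [← e2, e]
  exact logDeriv_const_mul z _ (by norm_num)

/-- nonprincipal characters -/
lemma dt_ne (q : ℕ) [NeZero q] (χ : DirichletCharacter ℂ q) (h1 : χ ≠ 1) (hχ : GRHc χ) :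
    ∃ Y, Dt χ Y := by
  have : NeZero χ.conductor := ⟨χ.conductor_ne_zero⟩
  have hψ : χ.primitiveCharacter.IsPrimitive := χ.primitiveCharacter_isPrimitive
  have hN : 1 < χ.conductor := by
    have h2 : χ.conductor ≠ 1 := fun h => h1 (DirichletCharacter.eq_one_iff_conductor_eq_one.2 h)
    have h3 := NeZero.ne χ.conductor
    omega
  have hψ1 : χ.primitiveCharacter ≠ 1 := ne_one_of_prim hN hψ
  have hfac : ∀ s : ℂ, LFunction χ s = LFunction χ.primitiveCharacter s *
      ∏ p ∈ q.primeFactors, (1 - χ.primitiveCharacter p * (p : ℂ) ^ (-s)) := fun s => by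
    have h := DirichletCharacter.LFunction_changeLevel χ.conductor_dvd_level χ.primitiveCharacter
      (s := s) (Or.inl hψ1)
    rwa [χ.changeLevel_primitiveCharacter] at h
  have hL : ∀ s : ℂ, 1 / 2 < s.re → LFunction χ.primitiveCharacter s ≠ 0 := by
    intro s hs h0
    have := grh_ne hχ hs (Or.inl h1)
    rw [hfac, h0, zero_mul] at this
    exact this rfl
  have hg : Gr (X χ.primitiveCharacter) := by
    refine ⟨Real.log χ.conductor + 2 * (χ.conductor + 1) + 25, ?_, fun z => X_growth hN hψ z⟩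
    have := Real.log_natCast_nonneg χ.conductor
    positivity
  have hm : ∀ γ : ℝ, analyticOrderNatAt (X χ.primitiveCharacter) ((γ : ℂ) * I) = mc χ γ := by
    intro γ
    have hre : (1 / 2 + (γ : ℂ) * I).re = 1 / 2 := Pool.Agent.Q195.CP.NT.half_re' γ
    have hopen : {w : ℂ | -(1 / 2) < w.re} ∈ 𝓝 ((γ : ℂ) * I) := by
      refine (isOpen_lt continuous_const continuous_re).mem_nhds ?_
      show -(1 / 2) < ((γ : ℂ) * I).re
      rw [re_mul_I]
      norm_num
    have hG : ∀ w : ℂ, -(1 / 2) < w.re → 0 < (1 / 2 + w - -aa χ.primitiveCharacter).re := by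
      intro w hw
      have := aa_re_nonneg (χ := χ.primitiveCharacter)
      rw [sub_neg_eq_add, add_re, add_re, Pool.Agent.Q119.HV.half_re]
      linarith
    have hNc : (χ.conductor : ℂ) ≠ 0 := Nne
    have e1 : analyticOrderAt (X χ.primitiveCharacter) ((γ : ℂ) * I) =
        analyticOrderAt (LFunction χ.primitiveCharacter) (1 / 2 + (γ : ℂ) * I) := by
      refine ord_shift (f := fun z => cc χ.primitiveCharacter * (χ.conductor : ℂ) ^ (z / 2) *
        Gammaℝ (1 / 2 + z - -aa χ.primitiveCharacter)) ?_ ?_ ?_ ?_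
      · filter_upwards [hopen] with w hw
        rw [X_eq hN hw]
        ring
      · have hd : ∀ᶠ w in 𝓝 ((γ : ℂ) * I), DifferentiableAt ℂ
            (fun z => cc χ.primitiveCharacter * (χ.conductor : ℂ) ^ (z / 2) *
              Gammaℝ (1 / 2 + z - -aa χ.primitiveCharacter)) w := by
          filter_upwards [hopen] with w hw
          have h2 : DifferentiableAt ℂ (fun z : ℂ => Gammaℝ (1 / 2 + z - -aa χ.primitiveCharacter)) w :=
            DifferentiableAt.comp w (Pool.Agent.Q195.CP.diffAt_GammaR (hG w hw)) (by fun_prop)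
          have h3 : DifferentiableAt ℂ (fun z : ℂ => (χ.conductor : ℂ) ^ (z / 2)) w := by
            apply DifferentiableAt.const_cpow _ (Or.inl hNc)
            fun_prop
          exact ((differentiableAt_const _).mul h3).mul h2
        exact analyticAt_iff_eventually_differentiableAt.2 hd
      · refine mul_ne_zero (mul_ne_zero (cc_ne hψ) ?_) (Gammaℝ_ne_zero_of_re_pos (hG _ ?_))
        · rw [Ne, cpow_eq_zero_iff]
          exact fun h => hNc h.1
        · rw [re_mul_I]
          norm_num
      · exact (DirichletCharacter.differentiable_LFunction hψ1).analyticAt _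
    have e2 := Pool.Agent.Q195.CP.NT.ord_prim χ (s := 1 / 2 + (γ : ℂ) * I) (by rw [hre]; norm_num)
      half_add_ne
    unfold mc analyticOrderNatAt
    rw [e1, e2]
  exact ⟨X χ.primitiveCharacter, X_diff hψ1, hg, X_sym hN hψ, fun z hz => X_zero hN hψ hL hz, hm,
    fun z _ => Pool.Agent.Q195.CP.logDeriv_XL_ne h1 z⟩

theorem dt_ex {q : ℕ} [NeZero q] (χ : DirichletCharacter ℂ q) (hχ : GRHc χ) : ∃ Y, Dt χ Y := by
  by_cases h1 : χ = 1
  · subst h1
    exact dt_one q hχ
  · exact dt_ne q χ h1 hχ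

end Pool.Agent.H293.CP
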